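import Mathlib
import Pool.Agent.H31.HS.Model
import Pool.Agent.H31.HS.SplitK
import Pool.Agent.H69.HS.ColSort
import Pool.Agent.H22.HC.Final

/-!
# MP_8a058f_lc: sorting on the hypercube in time `O(log n logloglog n)`
-/

set_option autoImplicit false

namespace Pool.Agent.Results.MP_8a058f_lc.TripleLogSorting

open Pool.Agent.H31.HS

/-- **Theorem.** There is a constant `C` such that for every `d ≥ 1` the `n = 2^d` records on the `d`-dimensional hypercube (one in each processor)
can be sorted by a deterministic comparison based store-and-forward algorithm with at most `C d (1 + log (1 + log d))` steps (logarithms to base `2`,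
rounded down), in which every message consists of one record and a label of at most `C d` bits: time `O(log n logloglog n)`. -/
theorem result : ∃ C : ℕ, ∀ d : ℕ, 1 ≤ d → ∃ (L : Type) (_ : Fintype L) (P : Plan d L), Valid P ∧ Sorts P ∧
    Fintype.card L ≤ 2 ^ (C * d) ∧ P.length ≤ C * d * (1 + Nat.log 2 (1 + Nat.log 2 d)) := by
  obtain ⟨cs, hcs⟩ := H69.HS.columnsort'
  obtain ⟨c0, hK⟩ := splitKR
  obtain ⟨c0', hO⟩ := splitOR
  exact Pool.Agent.H22.HC.final (cs := cs) (fun V Ω R m M S W Lam k n r0 N B h1 h2 h3 h4 h5 => hcs M S W Lam k n r0 N B h1 h2 h3 h4 h5) hK hO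

end Pool.Agent.Results.MP_8a058f_lc.TripleLogSorting
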